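import Mathlib
import Pool.Agent.H33.ZmDefs

namespace Pool.Agent.Results.MP_3a9d0e_gt.Q1
open Filter Topology Pool.Agent.H33.Zm Matrix

def hz (x y z : ℝ) : GL (Fin 3) ℝ where
  val := !![1, x, z; 0, 1, y; 0, 0, 1]
  inv := !![1, -x, x * y - z; 0, 1, -y; 0, 0, 1]
  val_inv := by
    ext i j; fin_cases i <;> fin_cases j <;> simp [Matrix.mul_apply, Fin.sum_univ_three]
    ring
  inv_val := by
    ext i j; fin_cases i <;> fin_cases j <;> simp [Matrix.mul_apply, Fin.sum_univ_three]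
    ring

lemma hz_mul (x y z x' y' z' : ℝ) :
    hz x y z * hz x' y' z' = hz (x + x') (y + y') (z + z' + x * y') := by
  apply Units.ext
  ext i j
  fin_cases i <;> fin_cases j <;> simp [hz, Matrix.mul_apply, Fin.sum_univ_three] <;> ring

lemma hz_zero : hz 0 0 0 = 1 := by
  apply Units.ext
  ext i j
  fin_cases i <;> fin_cases j <;> simp [hz]

lemma hz_inv (x y z : ℝ) : (hz x y z)⁻¹ = hz (-x) (-y) (x * y - z) := by
  rw [inv_eq_iff_mul_eq_one, hz_mul, ← hz_zero]; congr 1 <;> ring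

def cx (g : GL (Fin 3) ℝ) : ℝ := g.val 0 1
def cy (g : GL (Fin 3) ℝ) : ℝ := g.val 1 2
def cz (g : GL (Fin 3) ℝ) : ℝ := g.val 0 2
@[simp] lemma cx_hz (x y z : ℝ) : cx (hz x y z) = x := rfl
@[simp] lemma cy_hz (x y z : ℝ) : cy (hz x y z) = y := rfl
@[simp] lemma cz_hz (x y z : ℝ) : cz (hz x y z) = z := rfl
lemma cont_cx : Continuous cx := (Units.continuous_val).matrix_elem 0 1
lemma cont_cy : Continuous cy := (Units.continuous_val).matrix_elem 1 2
lemma cont_cz : Continuous cz := (Units.continuous_val).matrix_elem 0 2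

lemma cont_hz {X : Type} [TopologicalSpace X] {x y z : X → ℝ} (hx : Continuous x) (hy : Continuous y)
    (hz' : Continuous z) : Continuous fun t => hz (x t) (y t) (z t) := by
  rw [Units.continuous_iff]
  constructor <;> refine continuous_matrix fun i j => ?_ <;> fin_cases i <;> fin_cases j <;>
    simp [hz, -Matrix.coe_units_inv, Units.inv_mk] <;> fun_prop

def grp (θ : ℝ) : Subgroup (GL (Fin 3) ℝ) where
  carrier := {g | ∃ (a b c : ℤ) (z : ℝ), g = hz (a + c * θ) (b + c * θ ^ 2) z}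
  one_mem' := ⟨0, 0, 0, 0, by simp [hz_zero]⟩
  mul_mem' := by
    rintro _ _ ⟨a, b, c, z, rfl⟩ ⟨a', b', c', z', rfl⟩
    refine ⟨a + a', b + b', c + c', z + z' + (a + c * θ) * (b' + c' * θ ^ 2), ?_⟩
    rw [hz_mul]; congr 1 <;> (push_cast; ring)
  inv_mem' := by
    rintro _ ⟨a, b, c, z, rfl⟩
    refine ⟨-a, -b, -c, (a + c * θ) * (b + c * θ ^ 2) - z, ?_⟩
    rw [hz_inv]; congr 1 <;> (push_cast; ring)

lemma indep {θ : ℝ} (hθ : Transcendental ℤ θ) (p q r : ℤ) (h : (p : ℝ) + q * θ + r * θ ^ 2 = 0) :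
    p = 0 ∧ q = 0 ∧ r = 0 := by
  open Polynomial in
  have h1 : (C p + C q * X + C r * X ^ 2 : ℤ[X]) = 0 := by
    by_contra hne
    exact hθ ⟨_, hne, by simpa using h⟩
  have c0 := congrArg (fun f => Polynomial.coeff f 0) h1
  have c1 := congrArg (fun f => Polynomial.coeff f 1) h1
  have c2 := congrArg (fun f => Polynomial.coeff f 2) h1
  simp only [Polynomial.coeff_add, Polynomial.coeff_C_mul, Polynomial.coeff_C, Polynomial.coeff_X,
    Polynomial.coeff_X_pow, Polynomial.coeff_zero] at c0 c1 c2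
  simp at c0 c1 c2
  exact ⟨c0, c1, c2⟩

lemma not_closed {θ : ℝ} (hθ : Transcendental ℤ θ) : ¬ IsClosed (grp θ : Set (GL (Fin 3) ℝ)) := by
  intro hc
  let S : Set (ℝ × ℝ) := {p | hz p.1 p.2 0 ∈ grp θ}
  have hS : IsClosed S := hc.preimage (cont_hz continuous_fst continuous_snd continuous_const)
  have mem : ∀ p : ℝ × ℝ, p ∈ S ↔ ∃ a b c : ℤ, p = (a + c * θ, b + c * θ ^ 2) := by
    intro p
    constructor
    · rintro ⟨a, b, c, z, h⟩
      exact ⟨a, b, c, Prod.ext (congrArg cx h) (congrArg cy h)⟩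
    · rintro ⟨a, b, c, rfl⟩
      exact ⟨a, b, c, 0, rfl⟩
  have : CompleteSpace S := hS.completeSpace_coe
  have : Nonempty S := ⟨⟨_, (mem _).2 ⟨0, 0, 0, rfl⟩⟩⟩
  let e : ℤ × ℤ × ℤ → S := fun v => ⟨_, (mem _).2 ⟨v.1, v.2.1, v.2.2, rfl⟩⟩
  obtain ⟨v, q, hq⟩ := nonempty_interior_of_iUnion_of_closed (f := fun v => ({e v} : Set S))
    (fun _ => isClosed_singleton) (by
      rw [Set.eq_univ_iff_forall]
      rintro ⟨p, hp⟩
      obtain ⟨a, b, c, rfl⟩ := (mem p).1 hp
      exact Set.mem_iUnion.2 ⟨(a, b, c), rfl⟩)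
  have hq' : q = e v := Set.mem_singleton_iff.1 (interior_subset hq)
  subst hq'
  obtain ⟨ε, hε, hb⟩ := Metric.mem_nhds_iff.1 (mem_interior_iff_mem_nhds.1 hq)
  let u : ℕ → ℝ × ℝ := fun n => (Int.fract (n * θ), Int.fract (n * θ ^ 2))
  obtain ⟨l, -, φ, hφ, hl⟩ := (isCompact_Icc (a := ((0, 0) : ℝ × ℝ)) (b := (1, 1))).tendsto_subseq
    (x := u) fun n => ⟨⟨Int.fract_nonneg _, Int.fract_nonneg _⟩,
      ⟨(Int.fract_lt_one _).le, (Int.fract_lt_one _).le⟩⟩
  obtain ⟨N, hN⟩ := Metric.cauchySeq_iff'.1 hl.cauchySeq ε hε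
  have h1 := hN (N + 1) (Nat.le_succ N)
  have h2 : φ N < φ (N + 1) := hφ (Nat.lt_succ_self N)
  set m := φ (N + 1)
  set n := φ N
  let w : ℤ × ℤ × ℤ := (v.1 - ⌊m * θ⌋ + ⌊n * θ⌋, v.2.1 - ⌊m * θ ^ 2⌋ + ⌊n * θ ^ 2⌋, v.2.2 + m - n)
  have h3 : e w ∈ Metric.ball (e v) ε := by
    rw [Metric.mem_ball, Subtype.dist_eq, dist_eq_norm]
    rw [dist_eq_norm] at h1
    convert h1 using 2
    simp only [e, w, u, Function.comp, Int.fract, Prod.mk_sub_mk]
    congr 1 <;> (push_cast; ring)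
  have h4 := congrArg (fun p : S => p.1.1) (hb h3)
  simp only [e, w] at h4
  have h5 := (indep hθ (⌊n * θ⌋ - ⌊m * θ⌋) (m - n) 0 (by push_cast at h4 ⊢; linarith)).2.1
  omega

lemma propZ {θ : ℝ} (hθ : Transcendental ℤ θ) : PropZ (grp θ) := by
  intro H hH hZ
  let c : ℝ → grp θ := fun t => ⟨hz 0 0 t, 0, 0, 0, t, by simp⟩
  have hc : Continuous c :=
    (cont_hz continuous_const continuous_const continuous_id).subtype_mk _
  let A : AddSubgroup ℝ :=
    { carrier := {t | c t ∈ H}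
      zero_mem' := by
        have : c 0 = 1 := Subtype.ext hz_zero
        show c 0 ∈ H
        rw [this]; exact H.one_mem
      add_mem' := fun {s t} hs ht => by
        have : c (s + t) = c s * c t := Subtype.ext (by simp [c, hz_mul])
        show c (s + t) ∈ H
        rw [this]; exact H.mul_mem hs ht
      neg_mem' := fun {s} hs => by
        have : c (-s) = (c s)⁻¹ := Subtype.ext (by simp [c, hz_inv])
        show c (-s) ∈ H
        rw [this]; exact H.inv_mem hs }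
  have hA : IsClosed (A : Set ℝ) := hH.preimage hc
  obtain ⟨δ, hδ, hA'⟩ : ∃ δ > 0, ∀ t ∈ A, |t| < δ → t = 0 := by
    rcases A.dense_or_cyclic with h | ⟨a, h⟩
    · exfalso
      have hall : ∀ t, c t ∈ H := fun t => by
        have : t ∈ closure (A : Set ℝ) := h t
        rwa [hA.closure_eq] at this
      let k : ℝ → H := fun t => ⟨c t, hall t⟩
      have hk : Continuous k := hc.subtype_mk _
      have hne : k 0 ≠ k 1 := fun h => by
        have := congrArg (fun g : H => cz g.1.1) h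
        simp [k, c] at this
      obtain ⟨s, hs, h0, h1⟩ := hZ.exists_subset_of_mem_open (a := k 0) (u := {k 1}ᶜ) hne
        isOpen_compl_singleton
      rcases isClopen_iff.1 (IsClopen.preimage hs hk) with h | h
      · have : (0 : ℝ) ∈ k ⁻¹' s := h0
        rw [h] at this; exact this
      · have : (1 : ℝ) ∈ k ⁻¹' s := by rw [h]; trivial
        exact h1 this rfl
    · by_cases ha : a = 0
      · refine ⟨1, one_pos, fun t ht _ => ?_⟩
        rw [h, AddSubgroup.mem_closure_singleton] at ht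
        obtain ⟨n, rfl⟩ := ht
        simp [ha]
      · refine ⟨|a|, abs_pos.2 ha, fun t ht hlt => ?_⟩
        rw [h, AddSubgroup.mem_closure_singleton] at ht
        obtain ⟨n, rfl⟩ := ht
        rw [zsmul_eq_mul, abs_mul] at hlt
        have h1 : |(n : ℝ)| < 1 := by
          have := abs_pos.2 ha
          nlinarith
        have h2 : |n| < 1 := by exact_mod_cast h1
        rw [Int.abs_lt_one_iff.1 h2, zero_smul]
  have cX : Continuous fun g : H => cx g.1.1 :=
    cont_cx.comp (continuous_subtype_val.comp continuous_subtype_val)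
  have cY : Continuous fun g : H => cy g.1.1 :=
    cont_cy.comp (continuous_subtype_val.comp continuous_subtype_val)
  have cZ : Continuous fun g : H => cz g.1.1 :=
    cont_cz.comp (continuous_subtype_val.comp continuous_subtype_val)
  have x1 : cx (1 : GL (Fin 3) ℝ) = 0 := by rw [← hz_zero]; rfl
  have y1 : cy (1 : GL (Fin 3) ℝ) = 0 := by rw [← hz_zero]; rfl
  have z1 : cz (1 : GL (Fin 3) ℝ) = 0 := by rw [← hz_zero]; rfl
  have small : ∀ (f : H → ℝ), Continuous f → f 1 = 0 → ∀ ε > 0, ∀ᶠ g in 𝓝 (1 : H), |f g| < ε :=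
    fun f hf h0 ε hε => (isOpen_lt hf.abs continuous_const).mem_nhds (by simpa [h0] using hε)
  have ev : ∀ᶠ g in 𝓝 (1 : H), cx g.1.1 = 0 ∧ cy g.1.1 = 0 := by
    by_cases hall : ∀ g : H, cx g.1.1 = 0 ∧ cy g.1.1 = 0
    · exact Eventually.of_forall hall
    push Not at hall
    obtain ⟨⟨⟨_, a0, b0, c0, z0, rfl⟩, hg0⟩, hne⟩ := hall
    simp only [cx_hz, cy_hz] at hne
    set x0 : ℝ := a0 + c0 * θ with hx0
    set y0 : ℝ := b0 + c0 * θ ^ 2 with hy0
    have hpos : 0 < |x0| + |y0| := by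
      by_cases h : x0 = 0
      · have := abs_pos.2 (hne h); positivity
      · have := abs_pos.2 h; positivity
    have hN : (0 : ℝ) < ((a0 ^ 2 + b0 ^ 2 + c0 ^ 2 : ℤ) : ℝ) := by
      have : 0 < a0 ^ 2 + b0 ^ 2 + c0 ^ 2 := by
        by_contra h
        have h1 : a0 = 0 := by nlinarith [sq_nonneg a0, sq_nonneg b0, sq_nonneg c0]
        have h2 : b0 = 0 := by nlinarith [sq_nonneg a0, sq_nonneg b0, sq_nonneg c0]
        have h3 : c0 = 0 := by nlinarith [sq_nonneg a0, sq_nonneg b0, sq_nonneg c0]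
        simp [hx0, hy0, h1, h2, h3] at hpos
      exact_mod_cast this
    set N : ℝ := ((a0 ^ 2 + b0 ^ 2 + c0 ^ 2 : ℤ) : ℝ) with hNd
    filter_upwards [small (fun g => cx g.1.1 * y0 - cy g.1.1 * x0) (by fun_prop) (by simp [x1, y1]) δ hδ,
      small (fun g => N * (|cx g.1.1| + |cy g.1.1|)) (by fun_prop) (by simp [x1, y1]) _ hpos]
    rintro ⟨⟨_, a, b, k, z, rfl⟩, hg⟩ h1 h2
    simp only [cx_hz, cy_hz] at h1 h2 ⊢
    have hm : (a + k * θ) * y0 - (b + k * θ ^ 2) * x0 ∈ A := by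
      have := H.mul_mem (H.mul_mem (H.mul_mem hg hg0) (H.inv_mem hg)) (H.inv_mem hg0)
      show c _ ∈ H
      convert this using 1
      apply Subtype.ext
      simp only [c, Subgroup.coe_mul, Subgroup.coe_inv, hz_inv, hz_mul]
      congr 1 <;> ring
    have h3 := hA' _ hm h1
    obtain ⟨e1, e2, e3⟩ := indep hθ (a * b0 - b * a0) (k * b0 - b * c0) (a * c0 - k * a0) (by
      rw [hx0, hy0] at h3; push_cast; linarith)
    set d : ℤ := a * a0 + b * b0 + k * c0 with hd
    have f1 : (a0 ^ 2 + b0 ^ 2 + c0 ^ 2) * a = d * a0 := by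
      rw [hd]; linear_combination b0 * e1 + c0 * e3
    have f2 : (a0 ^ 2 + b0 ^ 2 + c0 ^ 2) * b = d * b0 := by
      rw [hd]; linear_combination (-a0) * e1 - c0 * e2
    have f3 : (a0 ^ 2 + b0 ^ 2 + c0 ^ 2) * k = d * c0 := by
      rw [hd]; linear_combination b0 * e2 - a0 * e3
    have g1 : N * a = d * a0 := by rw [hNd]; exact_mod_cast f1
    have g2 : N * b = d * b0 := by rw [hNd]; exact_mod_cast f2
    have g3 : N * k = d * c0 := by rw [hNd]; exact_mod_cast f3
    have k1 : N * (a + k * θ) = d * x0 := by rw [hx0]; linear_combination g1 + θ * g3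
    have k2 : N * (b + k * θ ^ 2) = d * y0 := by rw [hy0]; linear_combination g2 + θ ^ 2 * g3
    have k3 : N * (|a + k * θ| + |b + k * θ ^ 2|) = |(d : ℝ)| * (|x0| + |y0|) := by
      rw [mul_add, mul_add, ← abs_mul, ← abs_mul, ← k1, ← k2, abs_mul, abs_mul, abs_of_pos hN]
    rw [k3, abs_of_nonneg (by positivity)] at h2
    have k4 : |(d : ℝ)| < 1 := by nlinarith
    have k5 : d = 0 := Int.abs_lt_one_iff.1 (by exact_mod_cast k4)
    rw [k5, Int.cast_zero, zero_mul] at k1 k2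
    exact ⟨(mul_eq_zero.1 k1).resolve_left hN.ne', (mul_eq_zero.1 k2).resolve_left hN.ne'⟩
  rw [discreteTopology_iff_isOpen_singleton_one, isOpen_singleton_iff_nhds_eq_pure]
  refine le_antisymm (le_pure_iff.2 ?_) (pure_le_nhds _)
  filter_upwards [ev, small _ cZ z1 δ hδ]
  rintro ⟨⟨_, a, b, k, z, rfl⟩, hg⟩ ⟨h1, h2⟩ h3
  simp only [cx_hz, cy_hz, cz_hz] at h1 h2 h3
  have : z ∈ A := by
    show c z ∈ H
    convert hg using 1
    apply Subtype.ext
    simp only [c, h1, h2]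
  have h4 := hA' z this h3
  apply Subtype.ext; apply Subtype.ext
  simp only [h1, h2, h4, hz_zero]; rfl

theorem result : ∃ G : Subgroup (GL (Fin 3) ℝ),
    PropZ G ∧ PropZm G ∧ ¬ IsClosed (G : Set (GL (Fin 3) ℝ)) :=
  have h := transcendental_liouvilleNumber (le_refl 2)
  ⟨grp _, propZ h, fun H h1 h2 _ => propZ h H h1 h2, not_closed h⟩

end Pool.Agent.Results.MP_3a9d0e_gt.Q1
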